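import Mathlib

/-! Monic centred polynomials with a root far away: preimages of small discs are small. -/

set_option autoImplicit false

open Polynomial Filter Topology Metric

namespace Pool.Agent.Y334.AI

theorem norm_mprod (m : Multiset ℂ) : ‖m.prod‖ = (m.map norm).prod := by
  induction m using Multiset.induction_on with
  | empty => simp
  | cons a m ih => simp [ih]

theorem prod_ge (m : Multiset ℂ) (f : ℂ → ℝ) {x : ℝ} (hx : 0 ≤ x) (H : ∀ ζ ∈ m, x ≤ f ζ) :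
    x ^ m.card ≤ (m.map f).prod := by
  induction m using Multiset.induction_on with
  | empty => simp
  | cons a m ih =>
    rw [Multiset.card_cons, pow_succ, Multiset.map_cons, Multiset.prod_cons, mul_comm]
    exact mul_le_mul (H a (Multiset.mem_cons_self a m))
      (ih fun ζ hζ => H ζ (Multiset.mem_cons_of_mem hζ)) (pow_nonneg hx _)
      (hx.trans (H a (Multiset.mem_cons_self a m)))

theorem prod_le (m : Multiset ℂ) (f : ℂ → ℝ) {x : ℝ} (hx : 0 ≤ x)
    (H : ∀ ζ ∈ m, 0 ≤ f ζ ∧ f ζ ≤ x) : 0 ≤ (m.map f).prod ∧ (m.map f).prod ≤ x ^ m.card := by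
  induction m using Multiset.induction_on with
  | empty => simp
  | cons a m ih =>
    have h1 := ih fun ζ hζ => H ζ (Multiset.mem_cons_of_mem hζ)
    have h2 := H a (Multiset.mem_cons_self a m)
    rw [Multiset.card_cons, pow_succ, Multiset.map_cons, Multiset.prod_cons, mul_comm (x ^ _)]
    exact ⟨mul_nonneg h2.1 h1.1, mul_le_mul h2.2 h1.2 h1.1 hx⟩

theorem prod_lt (m : Multiset ℂ) (f : ℂ → ℝ) {x : ℝ} (hx : 0 < x)
    (H : ∀ ζ ∈ m, 0 ≤ f ζ ∧ f ζ < x) (hm : m ≠ 0) : (m.map f).prod < x ^ m.card := by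
  obtain ⟨a, ha⟩ := Multiset.exists_mem_of_ne_zero hm
  obtain ⟨n, rfl⟩ := Multiset.exists_cons_of_mem ha
  have h1 := prod_le n f hx.le fun ζ hζ =>
    ⟨(H ζ (Multiset.mem_cons_of_mem hζ)).1, (H ζ (Multiset.mem_cons_of_mem hζ)).2.le⟩
  have h2 := H a (Multiset.mem_cons_self a n)
  rw [Multiset.card_cons, pow_succ, Multiset.map_cons, Multiset.prod_cons, mul_comm (x ^ _)]
  calc f a * (n.map f).prod ≤ f a * x ^ n.card := mul_le_mul_of_nonneg_left h1.2 h2.1
    _ < x * x ^ n.card := mul_lt_mul_of_pos_right h2.2 (pow_pos hx _)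

theorem prod_gt (m : Multiset ℂ) (f : ℂ → ℝ) {x : ℝ} (hx : 0 ≤ x)
    (H : ∀ ζ ∈ m, x < f ζ) (hm : m ≠ 0) : x ^ m.card < (m.map f).prod := by
  obtain ⟨a, ha⟩ := Multiset.exists_mem_of_ne_zero hm
  obtain ⟨n, rfl⟩ := Multiset.exists_cons_of_mem ha
  have h2 := H a (Multiset.mem_cons_self a n)
  rw [Multiset.card_cons, pow_succ, Multiset.map_cons, Multiset.prod_cons, mul_comm (x ^ _)]
  rcases hx.eq_or_lt with h0 | h0
  · subst h0
    have h1 : 0 < (n.map f).prod := by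
      apply Multiset.prod_pos
      intro y hy
      obtain ⟨ζ, hζ, rfl⟩ := Multiset.mem_map.1 hy
      exact H ζ (Multiset.mem_cons_of_mem hζ)
    rw [zero_mul]
    exact mul_pos h2 h1
  · have h1 := prod_ge n f h0.le fun ζ hζ => (H ζ (Multiset.mem_cons_of_mem hζ)).le
    calc x * x ^ n.card < f a * x ^ n.card := mul_lt_mul_of_pos_right h2 (pow_pos h0 _)
      _ ≤ f a * (n.map f).prod := mul_le_mul_of_nonneg_left h1 (h0.trans h2).le

/-- monic centred polynomial of degree `d` -/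
structure MC (d : ℕ) (Q : ℂ[X]) : Prop where
  monic : Q.Monic
  deg : Q.natDegree = d
  cent : Q.coeff (d - 1) = 0

variable {d : ℕ} {Q : ℂ[X]}

theorem MC.sub (hd : 3 ≤ d) (h : MC d Q) (w : ℂ) : MC d (Q - C w) where
  monic := by
    apply h.monic.sub_of_left
    refine lt_of_le_of_lt degree_C_le ?_
    rw [degree_eq_natDegree h.monic.ne_zero, h.deg]
    exact_mod_cast (by omega : 0 < d)
  deg := by rw [natDegree_sub_C, h.deg]
  cent := by rw [coeff_sub, coeff_C, if_neg (by omega), h.cent, sub_zero]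

theorem MC.eval_prod (h : MC d Q) (z : ℂ) : ‖Q.eval z‖ = (Q.roots.map fun ζ => ‖z - ζ‖).prod := by
  rw [(IsAlgClosed.splits Q).eval_eq_prod_roots_of_monic h.monic z, norm_mprod, Multiset.map_map]
  rfl

theorem MC.card (h : MC d Q) : Q.roots.card = d := by
  rw [IsAlgClosed.card_roots_eq_natDegree, h.deg]

theorem MC.sum (hd : 3 ≤ d) (h : MC d Q) : Q.roots.sum = 0 := by
  have h1 := (IsAlgClosed.splits Q).nextCoeff_eq_neg_sum_roots_of_monic h.monic
  rw [nextCoeff_of_natDegree_pos (by rw [h.deg]; omega), h.deg, h.cent] at h1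
  exact neg_eq_zero.1 h1.symm

theorem sum_map_sub (m : Multiset ℂ) (z : ℂ) :
    (m.map fun ζ => z - ζ).sum = m.card * z - m.sum := by
  induction m using Multiset.induction_on with
  | empty => simp
  | cons a m ih => simp only [Multiset.map_cons, Multiset.sum_cons, ih, Multiset.card_cons]; push_cast; ring

theorem norm_sum_le (m : Multiset ℂ) {x : ℝ} (H : ∀ ζ ∈ m, ‖ζ‖ ≤ x) : ‖m.sum‖ ≤ m.card * x := by
  induction m using Multiset.induction_on with
  | empty => simp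
  | cons a m ih =>
    have h1 := ih fun ζ hζ => H ζ (Multiset.mem_cons_of_mem hζ)
    have h2 := H a (Multiset.mem_cons_self a m)
    rw [Multiset.sum_cons, Multiset.card_cons]
    push_cast
    linarith [norm_add_le a m.sum]

/-- one of the roots of `Q - w` is far away -/
theorem far (hd : 3 ≤ d) (h : MC d Q) {ϱ : ℝ} (hϱ : 0 < ϱ) (w : ℂ)
    (hw : (∃ z₁ : ℂ, ϱ ≤ ‖z₁‖ ∧ ‖Q.eval z₁ - w‖ < (ϱ / 2) ^ d) ∨ (ϱ / 2) ^ d ≤ ‖Q.eval 0 - w‖)
    (z : ℂ) : ∃ ζ ∈ (Q - C w).roots, ϱ / 4 ≤ ‖z - ζ‖ := by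
  by_contra hcon
  push Not at hcon
  have hW := h.sub hd w
  have hcard := hW.card
  have hz : ‖z‖ ≤ ϱ / 4 := by
    have h1 := sum_map_sub (Q - C w).roots z
    rw [hW.sum hd, sub_zero, hcard] at h1
    have h2 : ‖((Q - C w).roots.map fun ζ => z - ζ).sum‖ ≤
        ((Q - C w).roots.map fun ζ => z - ζ).card * (ϱ / 4) := by
      apply norm_sum_le
      intro x hx
      obtain ⟨ζ, hζ, rfl⟩ := Multiset.mem_map.1 hx
      exact (hcon ζ hζ).le
    rw [h1, Multiset.card_map, hcard, norm_mul, Complex.norm_natCast] at h2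
    have hd0 : (0 : ℝ) < d := by exact_mod_cast (by omega : 0 < d)
    exact le_of_mul_le_mul_left h2 hd0
  have hroot : ∀ ζ ∈ (Q - C w).roots, ‖ζ‖ < ϱ / 2 := by
    intro ζ hζ
    have h1 := hcon ζ hζ
    have h2 : ‖ζ‖ ≤ ‖z‖ + ‖z - ζ‖ := by
      calc ‖ζ‖ = ‖z - (z - ζ)‖ := by congr 1; ring
        _ ≤ _ := norm_sub_le _ _
    linarith
  have hev : ∀ x : ℂ, ‖Q.eval x - w‖ = ((Q - C w).roots.map fun ζ => ‖x - ζ‖).prod := by
    intro x
    rw [← hW.eval_prod, eval_sub, eval_C]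
  rcases hw with ⟨z₁, h1, h2⟩ | h2
  · rw [hev] at h2
    have h3 := prod_ge (Q - C w).roots (fun ζ => ‖z₁ - ζ‖) (half_pos hϱ).le (fun ζ hζ => by
      have h4 := hroot ζ hζ
      have h5 : ‖z₁‖ ≤ ‖z₁ - ζ‖ + ‖ζ‖ := by
        calc ‖z₁‖ = ‖(z₁ - ζ) + ζ‖ := by congr 1; ring
          _ ≤ _ := norm_add_le _ _
      show ϱ / 2 ≤ ‖z₁ - ζ‖
      linarith)
    rw [hcard] at h3
    linarith
  · rw [hev] at h2
    have h3 := prod_lt (Q - C w).roots (fun ζ => ‖0 - ζ‖) (half_pos hϱ) (fun ζ hζ => by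
      refine ⟨norm_nonneg _, ?_⟩
      rw [zero_sub, norm_neg]
      exact hroot ζ hζ) (by
        intro h0
        rw [h0] at hcard
        simp at hcard
        omega)
    rw [hcard] at h3
    linarith

/-- a point where `Q` is near `w` is near a root of `Q - w` -/
theorem pull (hd : 3 ≤ d) (h : MC d Q) {ϱ t : ℝ} (hϱ : 0 < ϱ) (ht : 0 ≤ t) (w z : ℂ)
    (hfar : ∃ ζ ∈ (Q - C w).roots, ϱ / 4 ≤ ‖z - ζ‖) (hz : ‖Q.eval z - w‖ ≤ t) :
    ∃ ζ ∈ (Q - C w).roots, ‖z - ζ‖ ≤ (4 * t / ϱ) ^ (1 / ((d : ℝ) - 1)) := by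
  classical
  have hW := h.sub hd w
  have hcard := hW.card
  obtain ⟨ζ₀, hζ₀, h0⟩ := hfar
  by_contra hcon
  push Not at hcon
  obtain ⟨m, hm⟩ := Multiset.exists_cons_of_mem hζ₀
  have hmc : m.card = d - 1 := by
    rw [hm, Multiset.card_cons] at hcard
    omega
  have hev : ‖Q.eval z - w‖ = ‖z - ζ₀‖ * (m.map fun ζ => ‖z - ζ‖).prod := by
    have h1 := hW.eval_prod z
    rw [eval_sub, eval_C, hm, Multiset.map_cons, Multiset.prod_cons] at h1
    exact h1
  have hx0 : 0 ≤ (4 * t / ϱ) ^ (1 / ((d : ℝ) - 1)) := by positivity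
  have h2 := prod_gt m (fun ζ => ‖z - ζ‖) hx0 (fun ζ hζ => hcon ζ (by
    rw [hm]
    exact Multiset.mem_cons_of_mem hζ)) (by
      intro h3
      rw [h3] at hmc
      simp at hmc
      omega)
  have hd1 : ((d - 1 : ℕ) : ℝ) = (d : ℝ) - 1 := by
    rw [Nat.cast_sub (by omega)]
    simp
  have hd2 : (0 : ℝ) < (d : ℝ) - 1 := by
    rw [← hd1]
    exact_mod_cast (by omega : 0 < d - 1)
  have h4 : ((4 * t / ϱ) ^ (1 / ((d : ℝ) - 1))) ^ (m.card) = 4 * t / ϱ := by
    rw [hmc, ← Real.rpow_natCast, ← Real.rpow_mul (by positivity), hd1, one_div,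
      inv_mul_cancel₀ hd2.ne', Real.rpow_one]
  rw [h4] at h2
  have h5 : ϱ / 4 * (4 * t / ϱ) = t := by field_simp
  have h6 : ϱ / 4 * (4 * t / ϱ) < ‖z - ζ₀‖ * (m.map fun ζ => ‖z - ζ‖).prod := by
    calc ϱ / 4 * (4 * t / ϱ) < ϱ / 4 * (m.map fun ζ => ‖z - ζ‖).prod :=
          mul_lt_mul_of_pos_left h2 (by positivity)
      _ ≤ ‖z - ζ₀‖ * (m.map fun ζ => ‖z - ζ‖).prod :=
          mul_le_mul_of_nonneg_right h0 (le_trans (by positivity) h2.le)
  rw [h5] at h6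
  linarith

end Pool.Agent.Y334.AI
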