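import Mathlib
import Pool.Agent.Y334.AI.Far

/-! Escape radii, coverings by boundedly many discs. -/

set_option autoImplicit false

open Polynomial Filter Topology Metric

namespace Pool.Agent.Y334.AI

/-- The orbit of `z` escapes to infinity. -/
def Esc (T : ℂ[X]) (z : ℂ) : Prop :=
  Tendsto (fun k : ℕ => ‖(fun w : ℂ => T.eval w)^[k] z‖) atTop atTop

theorem esc_eval {T : ℂ[X]} {z : ℂ} : Esc T (T.eval z) ↔ Esc T z := by
  unfold Esc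
  have h : ∀ k : ℕ, (fun w : ℂ => T.eval w)^[k] (T.eval z) =
      (fun w : ℂ => T.eval w)^[k + 1] z := fun k => by rw [Function.iterate_succ_apply]
  simp_rw [h]
  exact tendsto_add_atTop_iff_nat (f := fun k => ‖(fun w : ℂ => T.eval w)^[k] z‖) 1

theorem esc_of_big {T : ℂ[X]} {ρ : ℝ} (hρ : 0 < ρ)
    (H : ∀ z : ℂ, ρ ≤ ‖z‖ → 2 * ‖z‖ ≤ ‖T.eval z‖) {z : ℂ} (hz : ρ ≤ ‖z‖) : Esc T z := by
  have h : ∀ k : ℕ, 2 ^ k * ρ ≤ ‖(fun w : ℂ => T.eval w)^[k] z‖ := by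
    intro k
    induction k with
    | zero => simpa using hz
    | succ k ih =>
      rw [Function.iterate_succ_apply', pow_succ]
      have h1 : ρ ≤ ‖(fun w : ℂ => T.eval w)^[k] z‖ := by
        refine le_trans ?_ ih
        have : (1 : ℝ) ≤ 2 ^ k := one_le_pow₀ (by norm_num)
        nlinarith
      have h2 := H _ h1
      show 2 ^ k * 2 * ρ ≤ ‖T.eval ((fun w : ℂ => T.eval w)^[k] z)‖
      linarith
  refine tendsto_atTop_mono h ?_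
  exact (tendsto_pow_atTop_atTop_of_one_lt (by norm_num)).atTop_mul_const hρ

theorem not_esc_of_inv {T : ℂ[X]} {B : Set ℂ} (hB : Bornology.IsBounded B)
    (H : ∀ z ∈ B, T.eval z ∈ B) {z : ℂ} (hz : z ∈ B) : ¬ Esc T z := by
  intro h
  obtain ⟨M, hM⟩ := hB.exists_norm_le
  have h1 : ∀ k : ℕ, (fun w : ℂ => T.eval w)^[k] z ∈ B := by
    intro k
    induction k with
    | zero => simpa using hz
    | succ k ih =>
      rw [Function.iterate_succ_apply']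
      exact H _ ih
  obtain ⟨k, hk⟩ := (h.eventually (eventually_gt_atTop M)).exists
  exact absurd (hM _ (h1 k)) (not_le.2 hk)

variable {d : ℕ} {Q : ℂ[X]}

theorem eval_ge (h : MC d Q) {ϱ : ℝ} (hr : ∀ ζ ∈ Q.roots, ‖ζ‖ ≤ ϱ) {z : ℂ}
    (hz : 2 * ϱ ≤ ‖z‖) : (‖z‖ / 2) ^ d ≤ ‖Q.eval z‖ := by
  rw [h.eval_prod, ← h.card]
  refine prod_ge _ _ (by positivity) fun ζ hζ => ?_
  have h1 := hr ζ hζ
  have h2 : ‖z‖ ≤ ‖z - ζ‖ + ‖ζ‖ := by
    calc ‖z‖ = ‖(z - ζ) + ζ‖ := by congr 1; ring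
      _ ≤ _ := norm_add_le _ _
  show ‖z‖ / 2 ≤ ‖z - ζ‖
  linarith

theorem eval_le (h : MC d Q) {ϱ : ℝ} (hr : ∀ ζ ∈ Q.roots, ‖ζ‖ ≤ ϱ) {z : ℂ}
    (hz : ‖z‖ ≤ ϱ) : ‖Q.eval z‖ ≤ (2 * ϱ) ^ d := by
  rw [h.eval_prod, ← h.card]
  have h0 : 0 ≤ ϱ := (norm_nonneg z).trans hz
  refine (prod_le _ _ (by positivity) fun ζ hζ => ?_).2
  refine ⟨norm_nonneg _, ?_⟩
  have h1 := hr ζ hζ
  linarith [norm_sub_le z ζ]

/-- a cube is big -/
theorem cube_le {d : ℕ} (hd : 3 ≤ d) {u : ℝ} (hu : 1 ≤ u) : u * u * u ≤ u ^ d := by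
  calc u * u * u = u ^ 3 := by ring
    _ ≤ u ^ d := pow_le_pow_right₀ hu hd

/-- critical points are not larger than the roots -/
theorem crit_le (hd : 3 ≤ d) (h : MC d Q) {ϱ : ℝ} (hr : ∀ ζ ∈ Q.roots, ‖ζ‖ ≤ ϱ) {c : ℂ}
    (hc : (derivative Q).eval c = 0) : ‖c‖ ≤ ϱ := by
  have hdeg : 0 < Q.degree := by
    rw [degree_eq_natDegree h.monic.ne_zero, h.deg]
    exact_mod_cast (by omega : 0 < d)
  have h1 : Q.rootSet ℂ ⊆ closedBall (0 : ℂ) ϱ := by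
    intro ζ hζ
    rw [mem_rootSet] at hζ
    rw [mem_closedBall_zero_iff]
    refine hr ζ ?_
    rw [mem_roots hζ.1]
    simpa using hζ.2
  have h2 := rootSet_derivative_subset_convexHull_rootSet hdeg
  have h3 : c ∈ (derivative Q).rootSet ℂ := by
    rw [mem_rootSet]
    refine ⟨?_, by simpa using hc⟩
    intro h0
    have := natDegree_eq_zero_of_derivative_eq_zero h0
    rw [h.deg] at this
    omega
  have h4 := convexHull_min h1 (convex_closedBall (0 : ℂ) ϱ) (h2 h3)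
  rwa [mem_closedBall_zero_iff] at h4

/-- `S` is covered by at most `N` closed discs of radius `r` -/
def Cov (S : Set ℂ) (N : ℕ) (r : ℝ) : Prop :=
  ∃ F : Finset ℂ, F.card ≤ N ∧ ∀ z ∈ S, ∃ a ∈ F, ‖z - a‖ ≤ r

theorem Cov.mono {S S' : Set ℂ} {N N' : ℕ} {r r' : ℝ} (h : Cov S N r) (hS : S' ⊆ S)
    (hN : N ≤ N') (hr : r ≤ r') : Cov S' N' r' := by
  obtain ⟨F, h1, h2⟩ := h
  refine ⟨F, h1.trans hN, fun z hz => ?_⟩
  obtain ⟨a, ha, h3⟩ := h2 z (hS hz)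
  exact ⟨a, ha, h3.trans hr⟩

/-- the covering pulled back -/
theorem cov_pull (hd : 3 ≤ d) (h : MC d Q) {ϱ t : ℝ} (hϱ : 0 < ϱ) (ht : 0 ≤ t) (F : Finset ℂ)
    (hF : ∀ w ∈ F, ∀ z : ℂ, ∃ ζ ∈ (Q - C w).roots, ϱ / 4 ≤ ‖z - ζ‖) (S : Set ℂ)
    (hS : ∀ z ∈ S, ∃ w ∈ F, ‖Q.eval z - w‖ ≤ t) :
    ∃ F' : Finset ℂ, F'.card ≤ F.card * d ∧ (∀ ζ ∈ F', Q.eval ζ ∈ F) ∧
      ∀ z ∈ S, ∃ a ∈ F', ‖z - a‖ ≤ (4 * t / ϱ) ^ (1 / ((d : ℝ) - 1)) := by
  classical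
  refine ⟨F.biUnion fun w => (Q - C w).roots.toFinset, ?_, ?_, ?_⟩
  · refine Finset.card_biUnion_le_card_mul _ _ _ fun w _ => ?_
    refine (Multiset.toFinset_card_le _).trans ?_
    rw [(h.sub hd w).card]
  · intro ζ hζ
    rw [Finset.mem_biUnion] at hζ
    obtain ⟨w, hw, h1⟩ := hζ
    rw [Multiset.mem_toFinset, mem_roots (h.sub hd w).monic.ne_zero, IsRoot.def, eval_sub,
      eval_C, sub_eq_zero] at h1
    rw [h1]
    exact hw
  · intro z hz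
    obtain ⟨w, hw, h1⟩ := hS z hz
    obtain ⟨ζ, hζ, h2⟩ := pull hd h hϱ ht w z (hF w hw z) h1
    refine ⟨ζ, ?_, h2⟩
    rw [Finset.mem_biUnion]
    exact ⟨w, hw, by rwa [Multiset.mem_toFinset]⟩

/-- the exponents -/
noncomputable def ex (d : ℕ) (k : ℕ) : ℝ :=
  1 / ((d : ℝ) - 2) - (1 + 1 / ((d : ℝ) - 2)) * (1 / ((d : ℝ) - 1)) ^ k

theorem ex_zero (d : ℕ) : ex d 0 = -1 := by
  unfold ex
  ring

theorem ex_succ (hd : 3 ≤ d) (k : ℕ) : ex d (k + 1) = (1 + ex d k) / ((d : ℝ) - 1) := by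
  have h3 : (3 : ℝ) ≤ d := by exact_mod_cast hd
  have h1 : (d : ℝ) - 1 ≠ 0 := by linarith
  have h2 : (d : ℝ) - 2 ≠ 0 := by linarith
  unfold ex
  rw [pow_succ]
  field_simp
  ring

theorem ex_mono (hd : 3 ≤ d) (k : ℕ) : ex d k ≤ ex d (k + 1) := by
  have h3 : (3 : ℝ) ≤ d := by exact_mod_cast hd
  have h1 : 0 < (d : ℝ) - 1 := by linarith
  have h2 : 0 < (d : ℝ) - 2 := by linarith
  unfold ex
  rw [pow_succ]
  have h4 : 0 ≤ (1 + 1 / ((d : ℝ) - 2)) * (1 / ((d : ℝ) - 1)) ^ k := by positivity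
  have h5 : 1 / ((d : ℝ) - 1) ≤ 1 := by
    rw [div_le_one h1]
    linarith
  nlinarith [mul_le_mul_of_nonneg_left h5 h4]

theorem ex_ge (hd : 3 ≤ d) {θ : ℝ} (hθ : θ < 1 / ((d : ℝ) - 2)) : ∃ k : ℕ, θ ≤ ex d k := by
  have h3 : (3 : ℝ) ≤ d := by exact_mod_cast hd
  have h1 : 0 < (d : ℝ) - 1 := by linarith
  have h2 : 0 < (d : ℝ) - 2 := by linarith
  have h4 : Tendsto (fun k : ℕ => ex d k) atTop (𝓝 (1 / ((d : ℝ) - 2) -
      (1 + 1 / ((d : ℝ) - 2)) * 0)) := by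
    unfold ex
    refine tendsto_const_nhds.sub (tendsto_const_nhds.mul ?_)
    refine tendsto_pow_atTop_nhds_zero_of_lt_one (by positivity) ?_
    rw [div_lt_one h1]
    linarith
  rw [mul_zero, sub_zero] at h4
  obtain ⟨k, hk⟩ := (h4.eventually (eventually_gt_nhds hθ)).exists
  exact ⟨k, hk.le⟩

/-- one step of the recursion of the radii -/
theorem rad_step (hd : 3 ≤ d) {R t : ℝ} (hR : 1 ≤ R) (k : ℕ) (ht0 : 0 ≤ t)
    (ht : t ≤ 2 * (16 * R ^ (-ex d k))) :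
    (4 * t / R) ^ (1 / ((d : ℝ) - 1)) ≤ 16 * R ^ (-ex d (k + 1)) := by
  have h3 : (3 : ℝ) ≤ d := by exact_mod_cast hd
  have h1 : 0 < (d : ℝ) - 1 := by linarith
  have hR0 : 0 < R := by linarith
  have hRk : 0 < R ^ (-ex d k) := Real.rpow_pos_of_pos hR0 _
  have hle : 4 * t / R ≤ 128 * R ^ (-(1 + ex d k)) := by
    rw [neg_add, Real.rpow_add hR0, Real.rpow_neg_one, div_eq_mul_inv]
    have h5 : 0 < R⁻¹ := inv_pos.2 hR0
    nlinarith [mul_le_mul_of_nonneg_right ht h5.le]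
  have h6 : (128 : ℝ) ^ (1 / ((d : ℝ) - 1)) ≤ 16 := by
    calc (128 : ℝ) ^ (1 / ((d : ℝ) - 1)) ≤ (256 : ℝ) ^ (1 / ((d : ℝ) - 1)) :=
          Real.rpow_le_rpow (by norm_num) (by norm_num) (by positivity)
      _ ≤ (256 : ℝ) ^ (1 / 2 : ℝ) := by
          refine Real.rpow_le_rpow_of_exponent_le (by norm_num) ?_
          exact one_div_le_one_div_of_le (by norm_num) (by linarith)
      _ = 16 := by
          rw [show (256 : ℝ) = 16 ^ (2 : ℝ) by norm_num, ← Real.rpow_mul (by norm_num)]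
          norm_num
  calc (4 * t / R) ^ (1 / ((d : ℝ) - 1)) ≤ (128 * R ^ (-(1 + ex d k))) ^ (1 / ((d : ℝ) - 1)) :=
        Real.rpow_le_rpow (by positivity) hle (by positivity)
    _ = (128 : ℝ) ^ (1 / ((d : ℝ) - 1)) * R ^ (-ex d (k + 1)) := by
        rw [Real.mul_rpow (by norm_num) (Real.rpow_pos_of_pos hR0 _).le, ← Real.rpow_mul hR0.le,
          ex_succ hd]
        congr 2
        ring
    _ ≤ 16 * R ^ (-ex d (k + 1)) :=
        mul_le_mul_of_nonneg_right h6 (Real.rpow_pos_of_pos hR0 _).le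

theorem rad_mono (hd : 3 ≤ d) {R : ℝ} (hR : 1 ≤ R) (k : ℕ) :
    16 * R ^ (-ex d (k + 1)) ≤ 16 * R ^ (-ex d k) := by
  have h1 := Real.rpow_le_rpow_of_exponent_le hR (neg_le_neg (ex_mono hd k))
  linarith

end Pool.Agent.Y334.AI
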