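import Mathlib
import Pool.Agent.Y334.AI.Esc

/-! The set of translations which are not in the shift locus is covered by few small discs. -/

set_option autoImplicit false

open Polynomial Filter Topology Metric

namespace Pool.Agent.Y334.AI

variable {d : ℕ} {P T : ℂ[X]} {R : ℝ}

theorem big_of_small (hd : 3 ≤ d) (h : MC d P) (hr : ∀ ζ ∈ P.roots, ‖ζ‖ ≤ R) (hR : 8 ≤ R) {s : ℂ}
    (hs : ‖s‖ ≤ 4 * (2 * R) ^ d) {z : ℂ} (hz : 16 * R ≤ ‖z‖) :
    2 * ‖z‖ ≤ ‖(P + C s).eval z‖ := by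
  have h1 := eval_ge h hr (z := z) (by linarith)
  rw [eval_add, eval_C]
  have h2 : ‖P.eval z‖ ≤ ‖P.eval z + s‖ + ‖s‖ := by
    calc ‖P.eval z‖ = ‖(P.eval z + s) - s‖ := by congr 1; ring
      _ ≤ _ := norm_sub_le _ _
  set u := ‖z‖ / 2 with hu
  have hu8 : 8 * R ≤ u := by rw [hu]; linarith
  have h3 : (2 * R) ^ d ≤ u ^ d / 64 := by
    have h4 : (2 * R) ^ d ≤ (u / 4) ^ d := pow_le_pow_left₀ (by linarith) (by linarith) d
    have h5 : (64 : ℝ) ≤ 4 ^ d := by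
      calc (64 : ℝ) = 4 ^ 3 := by norm_num
        _ ≤ 4 ^ d := pow_le_pow_right₀ (by norm_num) hd
    have h6 : 0 ≤ u ^ d := by positivity
    rw [div_pow] at h4
    refine h4.trans ?_
    exact div_le_div_of_nonneg_left h6 (by norm_num) h5
  have h7 := cube_le hd (u := u) (by linarith)
  have h8 : 64 ≤ u := by linarith
  have h9 : 64 * 64 * u ≤ u * u * u := by
    have : 64 * 64 ≤ u * u := by nlinarith
    nlinarith
  have h10 : ‖z‖ = 2 * u := by rw [hu]; ring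
  rw [h10]
  linarith

theorem esc_crit_of_large (hd : 3 ≤ d) (h : MC d P) (hr : ∀ ζ ∈ P.roots, ‖ζ‖ ≤ R) (hR : 8 ≤ R)
    {s : ℂ} (hs : 4 * (2 * R) ^ d < ‖s‖) {c : ℂ} (hc : (derivative P).eval c = 0) :
    Esc (P + C s) c := by
  have hcR := crit_le hd h hr hc
  have h1 := eval_le h hr hcR
  have h16 : 16 ≤ 2 * R := by linarith
  have h2 := cube_le hd (u := 2 * R) (by linarith)
  have h3 : 16 * 16 * (2 * R) ≤ 2 * R * (2 * R) * (2 * R) := by
    have : 16 * 16 ≤ 2 * R * (2 * R) := by nlinarith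
    nlinarith
  rw [← esc_eval]
  have hv : 3 / 4 * ‖s‖ ≤ ‖(P + C s).eval c‖ := by
    rw [eval_add, eval_C]
    have h4 : ‖s‖ ≤ ‖P.eval c + s‖ + ‖P.eval c‖ := by
      calc ‖s‖ = ‖(P.eval c + s) - P.eval c‖ := by congr 1; ring
        _ ≤ _ := norm_sub_le _ _
    linarith
  refine esc_of_big (ρ := 3 / 4 * ‖s‖) (by nlinarith) (fun z hz => ?_) hv
  have h5 := eval_ge h hr (z := z) (by nlinarith)
  rw [eval_add, eval_C]
  have h6 : ‖P.eval z‖ ≤ ‖P.eval z + s‖ + ‖s‖ := by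
    calc ‖P.eval z‖ = ‖(P.eval z + s) - s‖ := by congr 1; ring
      _ ≤ _ := norm_sub_le _ _
  set u := ‖z‖ / 2 with hu
  have h10 : ‖z‖ = 2 * u := by rw [hu]; ring
  have h11 : 64 ≤ u := by rw [hu]; nlinarith
  have h7 := cube_le hd (u := u) (by linarith)
  have h9 : 64 * 64 * u ≤ u * u * u := by
    have : 64 * 64 ≤ u * u := by nlinarith
    nlinarith
  rw [h10]
  rw [h10] at hz
  linarith

/-- translations for which some critical point does not escape -/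
def Bad (T : ℂ[X]) : Set ℂ := {s | ∃ c : ℂ, (derivative T).eval c = 0 ∧ ¬ Esc (T + C s) c}

/-- the points which do not escape for some translation near `s₀` -/
def KK (d : ℕ) (P : ℂ[X]) (R : ℝ) (s₀ : ℂ) (δ : ℝ) : Set ℂ :=
  {z | ∃ s : ℂ, ‖s‖ ≤ 4 * (2 * R) ^ d ∧ ‖s - s₀‖ ≤ δ ∧ ¬ Esc (P + C s) z}

/-- normalised polynomials -/
structure Nm (d : ℕ) (P : ℂ[X]) (R : ℝ) : Prop where
  mc : MC d P
  zero : P.eval 0 = 0
  roots : ∀ ζ ∈ P.roots, ‖ζ‖ ≤ R
  attained : ∃ z₁ : ℂ, ‖z₁‖ = R ∧ P.eval z₁ = 0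
  big : 8 ≤ R

theorem Nm.far (hd : 3 ≤ d) (h : Nm d P R) (w z : ℂ) :
    ∃ ζ ∈ (P - C w).roots, R / 4 ≤ ‖z - ζ‖ := by
  have hR := h.big
  obtain ⟨z₁, h1, h2⟩ := h.attained
  refine AI.far hd h.mc (by linarith) w ?_ z
  rcases lt_or_ge ‖w‖ ((R / 2) ^ d) with h3 | h3
  · left
    refine ⟨z₁, h1.ge, ?_⟩
    rw [h2, zero_sub, norm_neg]
    exact h3
  · right
    rw [h.zero, zero_sub, norm_neg]
    exact h3

theorem KK_bound (hd : 3 ≤ d) (h : Nm d P R) {s₀ : ℂ} {δ : ℝ} {z : ℂ} (hz : z ∈ KK d P R s₀ δ) :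
    ‖z‖ ≤ 16 * R := by
  obtain ⟨s, h1, _, h2⟩ := hz
  by_contra h3
  push Not at h3
  exact h2 (esc_of_big (ρ := 16 * R) (by linarith [h.big])
    (fun y hy => big_of_small hd h.mc h.roots h.big h1 hy) h3.le)

theorem KK_step (hd : 3 ≤ d) (h : Nm d P R) {s₀ : ℂ} {δ r : ℝ} {N : ℕ} (hδ : 0 ≤ δ) (hr : 0 ≤ r)
    (hc : Cov (KK d P R s₀ δ) N r) :
    Cov (KK d P R s₀ δ) (N * d) ((4 * (r + δ) / R) ^ (1 / ((d : ℝ) - 1))) := by
  classical
  obtain ⟨F, hF, hF2⟩ := hc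
  have hR := h.big
  obtain ⟨F', h1, -, h2⟩ := cov_pull hd h.mc (ϱ := R) (t := r + δ) (by linarith) (by linarith)
    (F.image fun a => a - s₀) (fun w _ z => h.far hd w z) (KK d P R s₀ δ) (by
      rintro z ⟨s, h3, h4, h5⟩
      have h6 : P.eval z + s ∈ KK d P R s₀ δ := by
        refine ⟨s, h3, h4, ?_⟩
        have h7 : (P + C s).eval z = P.eval z + s := by rw [eval_add, eval_C]
        rw [← h7, esc_eval]
        exact h5
      obtain ⟨a, ha, h7⟩ := hF2 _ h6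
      refine ⟨a - s₀, Finset.mem_image_of_mem _ ha, ?_⟩
      calc ‖P.eval z - (a - s₀)‖ = ‖(P.eval z + s - a) - (s - s₀)‖ := by congr 1; ring
        _ ≤ ‖P.eval z + s - a‖ + ‖s - s₀‖ := norm_sub_le _ _
        _ ≤ r + δ := add_le_add h7 h4)
  refine ⟨F', h1.trans ?_, h2⟩
  exact Nat.mul_le_mul_right d (Finset.card_image_le.trans hF)

theorem KK_mono {s₀ : ℂ} {δ δ' : ℝ} (h : δ ≤ δ') : KK d P R s₀ δ ⊆ KK d P R s₀ δ' := by
  rintro z ⟨s, h1, h2, h3⟩
  exact ⟨s, h1, h2.trans h, h3⟩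

theorem KK_cov (hd : 3 ≤ d) (h : Nm d P R) (k : ℕ) (s₀ : ℂ) :
    Cov (KK d P R s₀ (16 * R ^ (-ex d k))) (d ^ k) (16 * R ^ (-ex d k)) := by
  have hR := h.big
  have hR0 : 0 < R := by linarith
  induction k with
  | zero =>
    refine ⟨{0}, by simp, fun z hz => ⟨0, Finset.mem_singleton_self 0, ?_⟩⟩
    rw [ex_zero, neg_neg, Real.rpow_one, sub_zero]
    exact KK_bound hd h hz
  | succ k ih =>
    have hp : 0 < R ^ (-ex d k) := Real.rpow_pos_of_pos hR0 _
    have hp1 : 0 < R ^ (-ex d (k + 1)) := Real.rpow_pos_of_pos hR0 _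
    have hm := rad_mono hd (R := R) (by linarith) k
    have h1 := KK_step hd h (δ := 16 * R ^ (-ex d (k + 1))) (r := 16 * R ^ (-ex d k))
      (by positivity) (by positivity) (ih.mono (KK_mono hm) le_rfl le_rfl)
    refine h1.mono subset_rfl (by rw [pow_succ]) ?_
    exact rad_step hd (by linarith) k (by positivity) (by linarith)

theorem KK_cov' (hd : 3 ≤ d) (h : Nm d P R) (k : ℕ) (s₀ : ℂ) :
    Cov (KK d P R s₀ (16 * R ^ (-ex d k))) (d ^ (k + 1)) (16 * R ^ (-ex d (k + 1))) := by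
  have hR := h.big
  have hR0 : 0 < R := by linarith
  have hp : 0 < R ^ (-ex d k) := Real.rpow_pos_of_pos hR0 _
  have h1 := KK_step hd h (δ := 16 * R ^ (-ex d k)) (r := 16 * R ^ (-ex d k))
    (by positivity) (by positivity) (KK_cov hd h k s₀)
  refine h1.mono subset_rfl (by rw [pow_succ]) ?_
  exact rad_step hd (by linarith) k (by positivity) (by linarith)

theorem bad_small (hd : 3 ≤ d) (h : MC d P) (hr : ∀ ζ ∈ P.roots, ‖ζ‖ ≤ R) (hR : 8 ≤ R) {s : ℂ}
    (hs : s ∈ Bad P) : ‖s‖ ≤ 4 * (2 * R) ^ d := by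
  obtain ⟨c, hc, h1⟩ := hs
  by_contra h2
  push Not at h2
  exact h1 (esc_crit_of_large hd h hr hR h2 hc)

/-- critical points as a finite set -/
noncomputable def crit (P : ℂ[X]) : Finset ℂ := (derivative P).roots.toFinset

theorem card_crit (h : MC d P) : (crit P).card ≤ d := by
  refine (Multiset.toFinset_card_le _).trans ((card_roots' _).trans ?_)
  refine (natDegree_derivative_le P).trans ?_
  rw [h.deg]
  omega

theorem mem_crit (hd : 3 ≤ d) (h : MC d P) {c : ℂ} (hc : (derivative P).eval c = 0) :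
    c ∈ crit P := by
  rw [crit, Multiset.mem_toFinset, mem_roots']
  refine ⟨?_, hc⟩
  intro h0
  have := derivative_eq_zero.1 h0
  rw [h.deg] at this
  omega

theorem bad_cov (hd : 3 ≤ d) (k : ℕ) : ∃ N : ℕ, ∀ (P : ℂ[X]) (R : ℝ), Nm d P R →
    Cov (Bad P) N (16 * R ^ (-ex d k)) := by
  classical
  induction k with
  | zero =>
    refine ⟨d, fun P R h => ⟨(crit P).image fun c => -P.eval c, ?_, ?_⟩⟩
    · exact Finset.card_image_le.trans (card_crit h.mc)
    · intro s hs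
      have hs1 := bad_small hd h.mc h.roots h.big hs
      obtain ⟨c, hc, h1⟩ := hs
      refine ⟨-P.eval c, Finset.mem_image_of_mem _ (mem_crit hd h.mc hc), ?_⟩
      rw [ex_zero, neg_neg, Real.rpow_one]
      have h2 : P.eval c + s ∈ KK d P R s 0 := by
        refine ⟨s, hs1, by simp, ?_⟩
        have h7 : (P + C s).eval c = P.eval c + s := by rw [eval_add, eval_C]
        rw [← h7, esc_eval]
        exact h1
      have h3 := KK_bound hd h h2
      calc ‖s - -P.eval c‖ = ‖P.eval c + s‖ := by congr 1; ring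
        _ ≤ _ := h3
  | succ k ih =>
    obtain ⟨N, hN⟩ := ih
    refine ⟨N * (d * d ^ (k + 1)), fun P R h => ?_⟩
    obtain ⟨F, hF1, hF2⟩ := hN P R h
    choose G hG1 hG2 using fun s₀ : ℂ => KK_cov' hd h k s₀
    refine ⟨F.biUnion fun s₀ => (crit P).biUnion fun c => (G s₀).image fun a => a - P.eval c,
      ?_, ?_⟩
    · refine (Finset.card_biUnion_le_card_mul _ _ (d * d ^ (k + 1)) fun s₀ _ => ?_).trans
        (Nat.mul_le_mul_right _ hF1)
      refine (Finset.card_biUnion_le_card_mul _ _ (d ^ (k + 1)) fun c _ => ?_).trans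
        (Nat.mul_le_mul_right _ (card_crit h.mc))
      exact Finset.card_image_le.trans (hG1 s₀)
    · intro s hs
      have hs1 := bad_small hd h.mc h.roots h.big hs
      obtain ⟨s₀, hs0, h0⟩ := hF2 s hs
      obtain ⟨c, hc, h1⟩ := hs
      have h2 : P.eval c + s ∈ KK d P R s₀ (16 * R ^ (-ex d k)) := by
        refine ⟨s, hs1, h0, ?_⟩
        have h7 : (P + C s).eval c = P.eval c + s := by rw [eval_add, eval_C]
        rw [← h7, esc_eval]
        exact h1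
      obtain ⟨a, ha, h3⟩ := hG2 s₀ _ h2
      refine ⟨a - P.eval c, ?_, ?_⟩
      · rw [Finset.mem_biUnion]
        refine ⟨s₀, hs0, ?_⟩
        rw [Finset.mem_biUnion]
        exact ⟨c, mem_crit hd h.mc hc, Finset.mem_image_of_mem _ ha⟩
      · calc ‖s - (a - P.eval c)‖ = ‖P.eval c + s - a‖ := by congr 1; ring
          _ ≤ _ := h3

end Pool.Agent.Y334.AI
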