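import Mathlib
import Pool.Agent.Y334.AI.Par

/-! The exponent `1 / (d - 2)` is optimal. -/

set_option autoImplicit false

open Polynomial Filter Topology Metric

namespace Pool.Agent.Y334.AI

variable {d : ℕ}

/-- `c + (z - c) ^ (d - 1) * (z + (d - 1) c)` -/
noncomputable def exT (d : ℕ) (c : ℂ) : ℂ[X] :=
  (X - C c) ^ (d - 1) * (X + C (((d - 1 : ℕ) : ℂ) * c)) - C (-c)

theorem exT_mc (hd : 3 ≤ d) (c : ℂ) : MC d (exT d c) := by
  unfold exT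
  apply MC.sub hd
  have hm1 : ((X - C c : ℂ[X]) ^ (d - 1)).Monic := (monic_X_sub_C c).pow _
  have hm2 : (X + C (((d - 1 : ℕ) : ℂ) * c) : ℂ[X]).Monic := monic_X_add_C _
  have hdeg : ((X - C c) ^ (d - 1) * (X + C (((d - 1 : ℕ) : ℂ) * c)) : ℂ[X]).natDegree = d := by
    rw [hm1.natDegree_mul hm2, natDegree_X_add_C, natDegree_pow, natDegree_X_sub_C]
    omega
  refine ⟨hm1.mul hm2, hdeg, ?_⟩
  have h1 := hm1.nextCoeff_mul hm2
  rw [nextCoeff_of_natDegree_pos (by rw [hdeg]; omega), hdeg] at h1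
  rw [h1, (monic_X_sub_C c).nextCoeff_pow, nextCoeff_X_sub_C, nextCoeff_X_add_C]
  simp

theorem exT_crit (hd : 3 ≤ d) (c : ℂ) : (derivative (exT d c)).eval c = 0 := by
  unfold exT
  have h1 : (0 : ℂ) ^ (d - 1) = 0 := zero_pow (by omega)
  have h2 : (0 : ℂ) ^ (d - 1 - 1) = 0 := zero_pow (by omega)
  simp [derivative_mul, derivative_pow, h1, h2]

theorem exT_eval (c s z : ℂ) : (exT d c + C s).eval z - c =
    (z - c) ^ (d - 1) * ((z - c) + (1 + ((d - 1 : ℕ) : ℂ)) * c) + s := by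
  unfold exT
  simp only [eval_add, eval_sub, eval_mul, eval_pow, eval_X, eval_C]
  ring

theorem ex_inv (hd : 3 ≤ d) {R : ℝ} (hR : 1 ≤ R) {c s : ℂ} (hc : ‖c‖ = R)
    (hs : ‖s‖ ≤ 1 / (4 * ((d : ℝ) + 1)) * R ^ (-(1 / ((d : ℝ) - 2)))) {z : ℂ}
    (hz : ‖z - c‖ ≤ 1 / (2 * ((d : ℝ) + 1)) * R ^ (-(1 / ((d : ℝ) - 2)))) :
    ‖(exT d c + C s).eval z - c‖ ≤ 1 / (2 * ((d : ℝ) + 1)) * R ^ (-(1 / ((d : ℝ) - 2))) := by
  have h3 : (3 : ℝ) ≤ d := by exact_mod_cast hd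
  have hR0 : 0 < R := by linarith
  set ρ : ℝ := 1 / (2 * ((d : ℝ) + 1)) * R ^ (-(1 / ((d : ℝ) - 2))) with hρ
  have hp : 0 < R ^ (-(1 / ((d : ℝ) - 2))) := Real.rpow_pos_of_pos hR0 _
  have hp1 : R ^ (-(1 / ((d : ℝ) - 2))) ≤ 1 := by
    refine Real.rpow_le_one_of_one_le_of_nonpos hR ?_
    have : 0 ≤ 1 / ((d : ℝ) - 2) := by
      apply one_div_nonneg.2
      linarith
    linarith
  have hc0 : (0 : ℝ) < 1 / (2 * ((d : ℝ) + 1)) := by positivity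
  have hc1 : 1 / (2 * ((d : ℝ) + 1)) ≤ 1 := by
    rw [div_le_one (by positivity)]
    linarith
  have hρ0 : 0 < ρ := by positivity
  have hρ1 : ρ ≤ 1 := by
    rw [hρ]
    nlinarith
  have hs' : ‖s‖ ≤ ρ / 2 := by
    refine hs.trans (le_of_eq ?_)
    rw [hρ]
    field_simp
    ring
  have hpow : ρ ^ (d - 2) ≤ 1 / (2 * ((d : ℝ) + 1)) * R⁻¹ := by
    rw [hρ, mul_pow]
    have h4 : (R ^ (-(1 / ((d : ℝ) - 2)))) ^ (d - 2) = R⁻¹ := by
      rw [← Real.rpow_natCast, ← Real.rpow_mul hR0.le, Nat.cast_sub (by omega : 2 ≤ d)]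
      have h5 : -(1 / ((d : ℝ) - 2)) * ((d : ℝ) - ((2 : ℕ) : ℝ)) = -1 := by
        have : (d : ℝ) - 2 ≠ 0 := by linarith
        push_cast
        field_simp
      rw [h5, Real.rpow_neg_one]
    rw [h4]
    refine mul_le_mul_of_nonneg_right ?_ (inv_nonneg.2 hR0.le)
    calc (1 / (2 * ((d : ℝ) + 1))) ^ (d - 2) ≤ (1 / (2 * ((d : ℝ) + 1))) ^ 1 :=
          pow_le_pow_of_le_one hc0.le hc1 (by omega)
      _ = _ := pow_one _
  rw [exT_eval]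
  have h6 : ‖(z - c) + (1 + ((d - 1 : ℕ) : ℂ)) * c‖ ≤ (d + 1) * R := by
    have h7 : (1 + ((d - 1 : ℕ) : ℂ)) = ((d : ℕ) : ℂ) := by
      rw [Nat.cast_sub (by omega)]
      push_cast
      ring
    calc ‖(z - c) + (1 + ((d - 1 : ℕ) : ℂ)) * c‖ ≤ ‖z - c‖ + ‖(1 + ((d - 1 : ℕ) : ℂ)) * c‖ :=
          norm_add_le _ _
      _ = ‖z - c‖ + d * R := by rw [h7, norm_mul, Complex.norm_natCast, hc]
      _ ≤ (d + 1) * R := by linarith
  have h8 : ρ ^ (d - 1) = ρ * ρ ^ (d - 2) := by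
    rw [← pow_succ']
    congr 1
    omega
  calc ‖(z - c) ^ (d - 1) * ((z - c) + (1 + ((d - 1 : ℕ) : ℂ)) * c) + s‖
      ≤ ‖z - c‖ ^ (d - 1) * ‖(z - c) + (1 + ((d - 1 : ℕ) : ℂ)) * c‖ + ‖s‖ := by
        refine (norm_add_le _ _).trans ?_
        rw [norm_mul, norm_pow]
    _ ≤ ρ ^ (d - 1) * ((d + 1) * R) + ρ / 2 := by
        refine add_le_add (mul_le_mul (pow_le_pow_left₀ (norm_nonneg _) hz _) h6
          (norm_nonneg _) (pow_nonneg hρ0.le _)) hs'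
    _ ≤ ρ * (1 / (2 * ((d : ℝ) + 1)) * R⁻¹) * ((d + 1) * R) + ρ / 2 := by
        rw [h8]
        have h9 : 0 ≤ ((d : ℝ) + 1) * R := by positivity
        have h10 := mul_le_mul_of_nonneg_right (mul_le_mul_of_nonneg_left hpow hρ0.le) h9
        linarith
    _ = ρ := by
        field_simp
        ring

theorem ex_main (hd : 3 ≤ d) : ∃ κ : ℝ, 0 < κ ∧ ∀ R : ℝ, 1 ≤ R → ∃ (T : ℂ[X]) (c : ℂ),
    MC d T ∧ (derivative T).eval c = 0 ∧ ‖c‖ = R ∧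
    (∀ z : ℂ, ‖z - c‖ ≤ κ * R ^ (-(1 / ((d : ℝ) - 2))) → ¬ Esc T z) ∧
    ∀ s : ℂ, ‖s‖ ≤ κ * R ^ (-(1 / ((d : ℝ) - 2))) → s ∈ Bad T := by
  refine ⟨1 / (4 * ((d : ℝ) + 1)), by positivity, fun R hR => ⟨exT d R, R, exT_mc hd _,
    exT_crit hd _, ?_, ?_, ?_⟩⟩
  · rw [Complex.norm_real, Real.norm_eq_abs, abs_of_nonneg (by linarith)]
  · intro z hz
    have hR0 : 0 < R := by linarith
    have hp : 0 < R ^ (-(1 / ((d : ℝ) - 2))) := Real.rpow_pos_of_pos hR0 _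
    have hle : 1 / (4 * ((d : ℝ) + 1)) ≤ 1 / (2 * ((d : ℝ) + 1)) :=
      one_div_le_one_div_of_le (by positivity) (by linarith [(Nat.cast_nonneg d : (0 : ℝ) ≤ d)])
    refine not_esc_of_inv (B := closedBall (R : ℂ)
      (1 / (2 * ((d : ℝ) + 1)) * R ^ (-(1 / ((d : ℝ) - 2))))) isBounded_closedBall ?_ ?_
    · intro y hy
      rw [mem_closedBall, dist_eq_norm] at hy ⊢
      have h1 := ex_inv hd hR (c := (R : ℂ)) (s := 0)
        (by rw [Complex.norm_real, Real.norm_eq_abs, abs_of_nonneg hR0.le])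
        (by rw [norm_zero]; positivity) hy
      rwa [C_0, add_zero] at h1
    · rw [mem_closedBall, dist_eq_norm]
      exact hz.trans (mul_le_mul_of_nonneg_right hle hp.le)
  · intro s hs
    have hR0 : 0 < R := by linarith
    have hp : 0 < R ^ (-(1 / ((d : ℝ) - 2))) := Real.rpow_pos_of_pos hR0 _
    refine ⟨R, exT_crit hd _, ?_⟩
    refine not_esc_of_inv (B := closedBall (R : ℂ)
      (1 / (2 * ((d : ℝ) + 1)) * R ^ (-(1 / ((d : ℝ) - 2))))) isBounded_closedBall ?_ ?_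
    · intro y hy
      rw [mem_closedBall, dist_eq_norm] at hy ⊢
      exact ex_inv hd hR (c := (R : ℂ))
        (by rw [Complex.norm_real, Real.norm_eq_abs, abs_of_nonneg hR0.le]) hs hy
    · rw [mem_closedBall, dist_self]
      positivity

end Pool.Agent.Y334.AI
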