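import Mathlib
import Pool.Agent.Y334.AI.Par

/-! Assembly: the filled Julia set and the set of bad translations are covered by boundedly many
discs of radius `C (1 + |c|) ^ (-θ)`; the exponent is optimal. -/

set_option autoImplicit false

open Polynomial Filter Topology Metric

namespace Pool.Agent.Y334.AI

variable {d : ℕ} {P T : ℂ[X]} {R : ℝ}

/-- a root of maximal modulus -/
theorem exists_max_root (hd : 3 ≤ d) (h : MC d P) :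
    ∃ z₁ : ℂ, P.eval z₁ = 0 ∧ ∀ ζ ∈ P.roots, ‖ζ‖ ≤ ‖z₁‖ := by
  classical
  have h1 : P.roots.toFinset.Nonempty := by
    rw [Multiset.toFinset_nonempty]
    intro h0
    have := h.card
    rw [h0] at this
    simp at this
    omega
  obtain ⟨z₁, hz, h2⟩ := Finset.exists_max_image P.roots.toFinset (fun ζ => ‖ζ‖) h1
  refine ⟨z₁, ?_, fun ζ hζ => h2 ζ (Multiset.mem_toFinset.2 hζ)⟩
  rw [Multiset.mem_toFinset, mem_roots h.monic.ne_zero] at hz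
  exact hz

/-- comparison of the sizes -/
theorem size_cmp {θ e R x : ℝ} (hθ : 0 ≤ θ) (he : θ ≤ e) (hR : 1 ≤ R) (hx0 : 0 ≤ x) (hx : x ≤ R) :
    R ^ (-e) ≤ 2 ^ θ * (1 + x) ^ (-θ) := by
  have hR0 : 0 < R := by linarith
  calc R ^ (-e) ≤ R ^ (-θ) := Real.rpow_le_rpow_of_exponent_le hR (by linarith)
    _ ≤ ((1 + x) / 2) ^ (-θ) :=
        Real.rpow_le_rpow_of_nonpos (by linarith) (by linarith) (by linarith)
    _ = 2 ^ θ * (1 + x) ^ (-θ) := by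
        rw [Real.div_rpow (by linarith) (by norm_num), Real.rpow_neg (by norm_num : (0 : ℝ) ≤ 2) θ,
          div_inv_eq_mul, mul_comm]

/-- comparison of the sizes, small case -/
theorem size_small {θ x : ℝ} (hθ : 0 ≤ θ) (hx0 : 0 ≤ x) (hx : x ≤ 8) :
    1 ≤ 9 ^ θ * (1 + x) ^ (-θ) := by
  have h1 : (9 : ℝ) ^ (-θ) ≤ (1 + x) ^ (-θ) :=
    Real.rpow_le_rpow_of_nonpos (by linarith) (by linarith) (by linarith)
  have h2 : (0 : ℝ) < 9 ^ θ := by positivity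
  calc (1 : ℝ) = 9 ^ θ * 9 ^ (-θ) := by
        rw [← Real.rpow_add (by norm_num), add_neg_cancel, Real.rpow_zero]
    _ ≤ _ := mul_le_mul_of_nonneg_left h1 h2.le

/-- the covering of the set of bad translations -/
theorem bad_main (hd : 3 ≤ d) {θ : ℝ} (hθ0 : 0 ≤ θ) (hθ : θ < 1 / ((d : ℝ) - 2)) :
    ∃ (N : ℕ) (K : ℝ), 0 < K ∧ ∀ T : ℂ[X], MC d T → ∀ c : ℂ, (derivative T).eval c = 0 →
      Cov (Bad T) N (K * (1 + ‖c‖) ^ (-θ)) := by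
  classical
  obtain ⟨k, hk⟩ := ex_ge hd hθ
  obtain ⟨N, hN⟩ := bad_cov hd k
  refine ⟨max N 1, max (16 * 2 ^ θ) (4 * (2 * 8) ^ d * 9 ^ θ), by positivity, ?_⟩
  intro T hT c hc
  set P := T - C (T.eval 0) with hP
  have hPT : T = P + C (T.eval 0) := by rw [hP]; ring
  have hPm : MC d P := hT.sub hd _
  have hder : derivative P = derivative T := by rw [hP]; simp
  have hP0 : P.eval 0 = 0 := by rw [hP]; simp
  have hcP : (derivative P).eval c = 0 := by rw [hder]; exact hc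
  have hbad : ∀ s ∈ Bad T, s + T.eval 0 ∈ Bad P := by
    rintro s ⟨c', h1, h2⟩
    refine ⟨c', by rw [hder]; exact h1, ?_⟩
    have h3 : P + C (s + T.eval 0) = T + C s := by
      rw [hP, C_add]
      ring
    rw [h3]
    exact h2
  have hx : 0 < (1 + ‖c‖) ^ (-θ) := Real.rpow_pos_of_pos (by positivity) _
  obtain ⟨z₁, hz1, hz2⟩ := exists_max_root hd hPm
  suffices hcov : Cov (Bad P) (max N 1)
      (max (16 * 2 ^ θ) (4 * (2 * 8) ^ d * 9 ^ θ) * (1 + ‖c‖) ^ (-θ)) by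
    obtain ⟨F, hF1, hF2⟩ := hcov
    refine ⟨F.image fun a => a - T.eval 0, Finset.card_image_le.trans hF1, fun s hs => ?_⟩
    obtain ⟨a, ha, h1⟩ := hF2 _ (hbad s hs)
    refine ⟨a - T.eval 0, Finset.mem_image_of_mem _ ha, ?_⟩
    calc ‖s - (a - T.eval 0)‖ = ‖s + T.eval 0 - a‖ := by congr 1; ring
      _ ≤ _ := h1
  have hcz : ‖c‖ ≤ ‖z₁‖ := crit_le hd hPm hz2 hcP
  rcases le_or_gt 8 ‖z₁‖ with h8 | h8
  · have hNm : Nm d P ‖z₁‖ := ⟨hPm, hP0, hz2, ⟨z₁, rfl, hz1⟩, h8⟩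
    refine (hN P _ hNm).mono subset_rfl (le_max_left _ _) ?_
    have h1 := size_cmp (x := ‖c‖) hθ0 hk (by linarith : (1 : ℝ) ≤ ‖z₁‖) (norm_nonneg _) hcz
    calc 16 * ‖z₁‖ ^ (-ex d k) ≤ 16 * (2 ^ θ * (1 + ‖c‖) ^ (-θ)) := by linarith
      _ = 16 * 2 ^ θ * (1 + ‖c‖) ^ (-θ) := by ring
      _ ≤ _ := mul_le_mul_of_nonneg_right (le_max_left _ _) hx.le
  · refine ⟨{0}, by simp, fun s hs => ⟨0, Finset.mem_singleton_self 0, ?_⟩⟩
    rw [sub_zero]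
    have h1 := bad_small hd hPm (R := 8) (fun ζ hζ => (hz2 ζ hζ).trans h8.le) le_rfl hs
    have h2 := size_small hθ0 (norm_nonneg c) (hcz.trans h8.le)
    have h3 : (0 : ℝ) < 4 * (2 * 8) ^ d := by positivity
    calc ‖s‖ ≤ 4 * (2 * 8) ^ d * 1 := by linarith
      _ ≤ 4 * (2 * 8) ^ d * (9 ^ θ * (1 + ‖c‖) ^ (-θ)) := mul_le_mul_of_nonneg_left h2 h3.le
      _ = 4 * (2 * 8) ^ d * 9 ^ θ * (1 + ‖c‖) ^ (-θ) := by ring
      _ ≤ _ := mul_le_mul_of_nonneg_right (le_max_right _ _) hx.le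

/-- escape radius for a polynomial with roots of modulus at most `ϱ` -/
theorem big_dyn (hd : 3 ≤ d) (h : MC d T) {ϱ : ℝ} (hr : ∀ ζ ∈ T.roots, ‖ζ‖ ≤ ϱ) (hϱ : 8 ≤ ϱ)
    {z : ℂ} (hz : 2 * ϱ ≤ ‖z‖) : 2 * ‖z‖ ≤ ‖T.eval z‖ := by
  have h1 := eval_ge h hr hz
  set u := ‖z‖ / 2 with hu
  have hu8 : 8 ≤ u := by rw [hu]; linarith
  have h7 := cube_le hd (u := u) (by linarith)
  have h9 : 8 * 8 * u ≤ u * u * u := by
    have : 8 * 8 ≤ u * u := by nlinarith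
    nlinarith
  have h10 : ‖z‖ = 2 * u := by rw [hu]; ring
  rw [h10]
  linarith

theorem dyn_bound (hd : 3 ≤ d) (h : MC d T) {ϱ : ℝ} (hr : ∀ ζ ∈ T.roots, ‖ζ‖ ≤ ϱ) (hϱ : 8 ≤ ϱ)
    {z : ℂ} (hz : ¬ Esc T z) : ‖z‖ ≤ 2 * ϱ := by
  by_contra h3
  push Not at h3
  exact hz (esc_of_big (ρ := 2 * ϱ) (by linarith) (fun y hy => big_dyn hd h hr hϱ hy) h3.le)

theorem dyn_cov (hd : 3 ≤ d) (h : MC d T) {z₁ : ℂ} (hz1 : T.eval z₁ = 0)
    (hr : ∀ ζ ∈ T.roots, ‖ζ‖ ≤ ‖z₁‖) (hϱ : 8 ≤ ‖z₁‖) (k : ℕ) :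
    ∃ F : Finset ℂ, F.card ≤ d ^ k ∧ (∀ a ∈ F, ‖a‖ ≤ 3 * ‖z₁‖) ∧
      ∀ z : ℂ, ¬ Esc T z → ∃ a ∈ F, ‖z - a‖ ≤ 16 * ‖z₁‖ ^ (-ex d k) := by
  have hϱ0 : 0 < ‖z₁‖ := by linarith
  induction k with
  | zero =>
    refine ⟨{0}, by simp, by simp, fun z hz => ⟨0, Finset.mem_singleton_self 0, ?_⟩⟩
    rw [ex_zero, neg_neg, Real.rpow_one, sub_zero]
    have := dyn_bound hd h hr hϱ hz
    linarith
  | succ k ih =>
    obtain ⟨F, hF1, hF2, hF3⟩ := ih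
    have hp : 0 < ‖z₁‖ ^ (-ex d k) := Real.rpow_pos_of_pos hϱ0 _
    obtain ⟨F', h1, h2, h3⟩ := cov_pull hd h (ϱ := ‖z₁‖) (t := 16 * ‖z₁‖ ^ (-ex d k)) hϱ0
      (by positivity) F (fun w hw z => by
        refine AI.far hd h hϱ0 w (Or.inl ⟨z₁, le_rfl, ?_⟩) z
        rw [hz1, zero_sub, norm_neg]
        refine (hF2 w hw).trans_lt ?_
        have h7 := cube_le hd (u := ‖z₁‖ / 2) (by linarith)
        have h8 : 4 * 4 * (‖z₁‖ / 2) ≤ ‖z₁‖ / 2 * (‖z₁‖ / 2) * (‖z₁‖ / 2) := by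
          have : 4 * 4 ≤ ‖z₁‖ / 2 * (‖z₁‖ / 2) := by nlinarith
          nlinarith
        linarith) {z | ¬ Esc T z} (by
        intro z hz
        exact hF3 _ (by rw [esc_eval]; exact hz))
    refine ⟨F', h1.trans (by rw [pow_succ]; exact Nat.mul_le_mul_right d hF1), ?_, ?_⟩
    · intro a ha
      have h4 := hF2 _ (h2 a ha)
      by_contra h5
      push Not at h5
      have h6 := eval_ge h hr (z := a) (by linarith)
      have h7 := cube_le hd (u := ‖a‖ / 2) (by linarith)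
      have h8 : 4 * 4 * (‖a‖ / 2) ≤ ‖a‖ / 2 * (‖a‖ / 2) * (‖a‖ / 2) := by
        have : 4 * 4 ≤ ‖a‖ / 2 * (‖a‖ / 2) := by nlinarith
        nlinarith
      linarith
    · intro z hz
      obtain ⟨a, ha, h4⟩ := h3 z hz
      exact ⟨a, ha, h4.trans (rad_step hd (by linarith) k (by positivity) (by linarith))⟩

/-- the covering of the filled Julia set -/
theorem dyn_main (hd : 3 ≤ d) {θ : ℝ} (hθ0 : 0 ≤ θ) (hθ : θ < 1 / ((d : ℝ) - 2)) :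
    ∃ (N : ℕ) (K : ℝ), 0 < K ∧ ∀ T : ℂ[X], MC d T → ∀ c : ℂ, (derivative T).eval c = 0 →
      Cov {z | ¬ Esc T z} N (K * (1 + ‖c‖) ^ (-θ)) := by
  obtain ⟨k, hk⟩ := ex_ge hd hθ
  refine ⟨max (d ^ k) 1, max (16 * 2 ^ θ) (16 * 9 ^ θ), by positivity, ?_⟩
  intro T hT c hc
  have hx : 0 < (1 + ‖c‖) ^ (-θ) := Real.rpow_pos_of_pos (by positivity) _
  obtain ⟨z₁, hz1, hz2⟩ := exists_max_root hd hT
  have hcz : ‖c‖ ≤ ‖z₁‖ := crit_le hd hT hz2 hc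
  rcases le_or_gt 8 ‖z₁‖ with h8 | h8
  · obtain ⟨F, hF1, -, hF3⟩ := dyn_cov hd hT hz1 hz2 h8 k
    have hcov : Cov {z | ¬ Esc T z} (d ^ k) (16 * ‖z₁‖ ^ (-ex d k)) := ⟨F, hF1, hF3⟩
    refine hcov.mono subset_rfl (le_max_left _ _) ?_
    have h1 := size_cmp (x := ‖c‖) hθ0 hk (by linarith : (1 : ℝ) ≤ ‖z₁‖) (norm_nonneg _) hcz
    calc 16 * ‖z₁‖ ^ (-ex d k) ≤ 16 * (2 ^ θ * (1 + ‖c‖) ^ (-θ)) := by linarith
      _ = 16 * 2 ^ θ * (1 + ‖c‖) ^ (-θ) := by ring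
      _ ≤ _ := mul_le_mul_of_nonneg_right (le_max_left _ _) hx.le
  · refine ⟨{0}, by simp, fun z hz => ⟨0, Finset.mem_singleton_self 0, ?_⟩⟩
    rw [sub_zero]
    have h1 := dyn_bound hd hT (ϱ := 8) (fun ζ hζ => (hz2 ζ hζ).trans h8.le) le_rfl hz
    have h2 := size_small hθ0 (norm_nonneg c) (hcz.trans h8.le)
    calc ‖z‖ ≤ 16 * 1 := by linarith
      _ ≤ 16 * (9 ^ θ * (1 + ‖c‖) ^ (-θ)) := mul_le_mul_of_nonneg_left h2 (by norm_num)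
      _ = 16 * 9 ^ θ * (1 + ‖c‖) ^ (-θ) := by ring
      _ ≤ _ := mul_le_mul_of_nonneg_right (le_max_right _ _) hx.le

/-- a covered set misses a small point -/
theorem exists_small {S : Set ℂ} {N : ℕ} {r : ℝ} (hr : 0 < r) (h : Cov S N r) :
    ∃ s : ℂ, ‖s‖ ≤ 3 * N * r ∧ s ∉ S := by
  classical
  obtain ⟨F, hF1, hF2⟩ := h
  by_contra hcon
  push Not at hcon
  have h1 : ∀ j ∈ Finset.range (N + 1), ∃ a ∈ F, ‖((3 * r * j : ℝ) : ℂ) - a‖ ≤ r := by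
    intro j hj
    refine hF2 _ (hcon _ ?_)
    rw [Complex.norm_real, Real.norm_eq_abs, abs_of_nonneg (by positivity)]
    have h2 : (j : ℝ) ≤ N := by exact_mod_cast Nat.lt_succ_iff.1 (Finset.mem_range.1 hj)
    nlinarith
  choose! f hf1 hf2 using h1
  obtain ⟨i, hi, j, hj, hij, h2⟩ := Finset.exists_ne_map_eq_of_card_lt_of_maps_to
    (s := Finset.range (N + 1)) (t := F) (f := f) (by rw [Finset.card_range]; omega)
    (fun j hj => hf1 j hj)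
  have h3 := hf2 i hi
  have h4 := hf2 j hj
  rw [h2] at h3
  have h5 : ‖((3 * r * i : ℝ) : ℂ) - ((3 * r * j : ℝ) : ℂ)‖ ≤ 2 * r := by
    calc ‖((3 * r * i : ℝ) : ℂ) - ((3 * r * j : ℝ) : ℂ)‖
        = ‖(((3 * r * i : ℝ) : ℂ) - f j) - (((3 * r * j : ℝ) : ℂ) - f j)‖ := by congr 1; ring
      _ ≤ _ := (norm_sub_le _ _).trans (by linarith)
  rw [← Complex.ofReal_sub, Complex.norm_real, Real.norm_eq_abs] at h5
  have h6 : (1 : ℝ) ≤ |(i : ℝ) - j| := by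
    have h7 : (i : ℤ) - j ≠ 0 := by
      intro h8
      exact hij (by omega)
    have h8 : 1 ≤ |(i : ℤ) - j| := Int.one_le_abs h7
    exact_mod_cast h8
  have h7 : |3 * r * i - 3 * r * j| = 3 * r * |(i : ℝ) - j| := by
    rw [← mul_sub, abs_mul, abs_of_pos (by positivity)]
  rw [h7] at h5
  nlinarith

end Pool.Agent.Y334.AI
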